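import Pool.Agent.Y659.MPS.Stm

/-!
From a level to the next one.
-/

set_option autoImplicit false

namespace Pool.Agent.Y331.MPS

open Matrix
open Pool.Agent.Results.MP_8bfff4_mp.ExactValue
open Pool.Agent.Y659.MPS

section ring
variable {R : Type*} [Ring R] {X Xi x y m : R}

lemma pwi (h1 : X * Xi = 1) (h2 : Xi * X = 1) (a b : ℕ) : X ^ (a + b) * Xi ^ b = X ^ a := by
  have hc : Commute X Xi := by rw [Commute, SemiconjBy, h1, h2]
  rw [pow_add, mul_assoc, ← hc.mul_pow, h1, one_pow, mul_one]

lemma pwi' (h1 : X * Xi = 1) (h2 : Xi * X = 1) (a b : ℕ) : X ^ b * Xi ^ (b + a) = Xi ^ a := by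
  have hc : Commute X Xi := by rw [Commute, SemiconjBy, h1, h2]
  rw [pow_add, ← mul_assoc, ← hc.mul_pow, h1, one_pow, one_mul]

lemma pwc (h1 : X * Xi = 1) (h2 : Xi * X = 1) (a b : ℕ) : Xi ^ a * X ^ b = X ^ b * Xi ^ a := by
  have hc : Commute X Xi := by rw [Commute, SemiconjBy, h1, h2]
  exact (hc.symm.pow_pow a b).eq

lemma e1 (hxy : x + y = X) (h0 : x * m * x = 0) {q : ℕ} (cy : X ^ q * y * m = m * y * X ^ q) :
    x * (X ^ q * y * m) = x * m * X ^ (q + 1) := by
  have h : x * m * X = x * m * y := by rw [← hxy, mul_add, h0, zero_add]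
  rw [cy, pow_succ', ← mul_assoc (x * m) X, h]
  simp only [mul_assoc]

lemma e2 (hxy : x + y = X) (h0 : x * m * x = 0) {q : ℕ} :
    (X ^ q * y * m) * x = X ^ (q + 1) * m * x := by
  have h : X * m * x = y * m * x := by rw [← hxy, add_mul, add_mul, h0, zero_add]
  calc (X ^ q * y * m) * x = X ^ q * (y * m * x) := by simp only [mul_assoc]
    _ = X ^ q * (X * m * x) := by rw [h]
    _ = _ := by rw [pow_succ]; simp only [mul_assoc]

end ring

theorem StepLev : St_StepLev := by
  intro D W X Xi x y m p q la lb hX hx hy h1 h2 hxy hpq hgr L h0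
  have hXx : X * m * x = y * m * x := by rw [← hxy, add_mul, add_mul, h0, zero_add]
  have hxX : x * m * X = x * m * y := by rw [← hxy, mul_add, h0, zero_add]
  have E1 : x * (X ^ q * y * m) = x * m * X ^ (q + 1) := e1 hxy h0 L.cy
  have E2 : (X ^ q * y * m) * x = X ^ (q + 1) * m * x := e2 hxy h0
  have hXp : ∀ n, X ^ n ∈ W ^ n := fun n => Submodule.pow_mem_pow W hX n
  have mm : ∀ {a b : ℕ} {u v : Matrix (Fin D) (Fin D) ℂ}, u ∈ W ^ a → v ∈ W ^ b →
      u * v ∈ W ^ (a + b) := fun hu hv => by rw [pow_add]; exact Submodule.mul_mem_mul hu hv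
  have hx1 : x ∈ W ^ 1 := by rwa [pow_one]
  have hy1 : y ∈ W ^ 1 := by rwa [pow_one]
  -- the elements `X ^ s * m * x * X ^ (q - s)`
  have hb' : ∀ s, s ≤ q → X ^ (p + s) * x * (X ^ q * y * m) * Xi ^ (p + s + 1) =
      X ^ s * (m * x) * X ^ (q - s) := by
    intro s hs
    obtain ⟨r, rfl⟩ := Nat.exists_eq_add_of_le hs
    have hr : s + r - s = r := by omega
    rw [hr]
    calc X ^ (p + s) * x * (X ^ (s + r) * y * m) * Xi ^ (p + s + 1)
        = X ^ (p + s) * (x * (X ^ (s + r) * y * m)) * Xi ^ (p + s + 1) := by
          simp only [mul_assoc]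
      _ = X ^ (s + p) * (x * m * X ^ (s + r + 1)) * Xi ^ (p + s + 1) := by
          rw [E1, add_comm p s]
      _ = X ^ s * (X ^ p * x * m) * (X ^ (s + r + 1) * Xi ^ (p + s + 1)) := by
          rw [pow_add X s p]; simp only [mul_assoc]
      _ = X ^ s * (m * x) * (X ^ p * X ^ (s + r + 1) * Xi ^ (p + s + 1)) := by
          rw [L.cx]; simp only [mul_assoc]
      _ = X ^ s * (m * x) * X ^ r := by
          rw [← pow_add, show p + (s + r + 1) = r + (p + s + 1) by omega, pwi h1 h2]
  have hia0 : ∀ j, j ≤ q → X ^ j * x * (X ^ q * y * m) * Xi ^ (j + 1) =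
      X ^ j * x * m * X ^ (q - j) := by
    intro j hj
    obtain ⟨r, rfl⟩ := Nat.exists_eq_add_of_le hj
    have hr : j + r - j = r := by omega
    rw [hr]
    calc X ^ j * x * (X ^ (j + r) * y * m) * Xi ^ (j + 1)
        = X ^ j * (x * (X ^ (j + r) * y * m)) * Xi ^ (j + 1) := by simp only [mul_assoc]
      _ = X ^ j * x * m * (X ^ (r + (j + 1)) * Xi ^ (j + 1)) := by
          rw [E1, show j + r + 1 = r + (j + 1) by omega]; simp only [mul_assoc]
      _ = _ := by rw [pwi h1 h2]
  have hib0 : ∀ j r, q = j + 1 + r → X ^ j * y * (X ^ q * y * m) * Xi ^ (j + 1) =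
      X ^ j * y * m * y * X ^ r := by
    intro j r hq
    rw [L.cy]
    calc X ^ j * y * (m * y * X ^ q) * Xi ^ (j + 1)
        = X ^ j * y * m * y * (X ^ (r + (j + 1)) * Xi ^ (j + 1)) := by
          rw [show q = r + (j + 1) by omega]; simp only [mul_assoc]
      _ = _ := by rw [pwi h1 h2]
  refine ⟨?_, ?_, ?_, ?_, ?_, ?_, ?_, ?_, ?_, ?_⟩
  · -- hm
    have := mm (mm (hXp q) hy1) L.hm
    rwa [show q + 1 + (p + q) = p + q + 1 + q by omega] at this
  · -- cx
    calc X ^ (p + q + 1) * x * (X ^ q * y * m)
        = X ^ (p + q + 1) * (x * (X ^ q * y * m)) := by simp only [mul_assoc]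
      _ = X ^ (q + 1 + p) * (x * m * X ^ (q + 1)) := by
          rw [E1, show p + q + 1 = q + 1 + p by omega]
      _ = X ^ (q + 1) * (X ^ p * x * m) * X ^ (q + 1) := by
          rw [pow_add X (q + 1) p]; simp only [mul_assoc]
      _ = (X ^ (q + 1) * m * x) * (X ^ p * X ^ (q + 1)) := by
          rw [L.cx]; simp only [mul_assoc]
      _ = (X ^ q * y * m) * x * X ^ (p + q + 1) := by
          rw [← E2, ← pow_add, show p + (q + 1) = p + q + 1 by omega]
  · -- cy
    calc X ^ q * y * (X ^ q * y * m) = X ^ q * y * (m * y * X ^ q) := by rw [L.cy]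
      _ = _ := by simp only [mul_assoc]
  · -- ha
    intro i hi
    rcases lt_trichotomy i p with h | h | h
    · obtain ⟨k1, k2, k3⟩ := L.ha i h
      have hs : stepLa x p la lb i = la i := by simp only [stepLa, if_pos h]
      rw [hs]
      refine ⟨k1, ?_, ?_⟩
      · calc la i * X ^ i * x * (X ^ q * y * m)
            = la i * X ^ i * (x * (X ^ q * y * m)) := by simp only [mul_assoc]
          _ = la i * X ^ i * x * m * X ^ (q + 1) := by rw [E1]; simp only [mul_assoc]
          _ = 0 := by rw [k2, zero_mul]
      · calc X ^ q * y * m * x * X ^ i * la i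
            = X ^ (q + 1) * (m * x * X ^ i * la i) := by rw [E2]; simp only [mul_assoc]
          _ = 0 := by rw [k3, mul_zero]
    · subst h
      have hs : stepLa x i la lb i = x := by simp only [stepLa, lt_irrefl, if_false, if_true]
      rw [hs]
      refine ⟨Or.inl rfl, ?_, ?_⟩
      · calc x * X ^ i * x * (X ^ q * y * m)
            = x * X ^ i * (x * (X ^ q * y * m)) := by simp only [mul_assoc]
          _ = x * (X ^ i * x * m) * X ^ (q + 1) := by rw [E1]; simp only [mul_assoc]
          _ = (x * m * x) * X ^ i * X ^ (q + 1) := by rw [L.cx]; simp only [mul_assoc]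
          _ = 0 := by rw [h0, zero_mul, zero_mul]
      · calc X ^ q * y * m * x * X ^ i * x
            = X ^ (q + 1) * (m * x * X ^ i) * x := by rw [E2]; simp only [mul_assoc]
          _ = X ^ (q + 1) * X ^ i * (x * m * x) := by rw [← L.cx]; simp only [mul_assoc]
          _ = 0 := by rw [h0, mul_zero]
    · obtain ⟨s, rfl⟩ := Nat.exists_eq_add_of_lt h
      have hsq : s < q := by omega
      obtain ⟨k1, k2, k3⟩ := L.hb s hsq
      have hs : stepLa x p la lb (p + s + 1) = lb s := by
        simp only [stepLa]
        rw [if_neg (by omega), if_neg (by omega), show p + s + 1 - p - 1 = s by omega]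
      rw [hs]
      refine ⟨k1.symm.symm, ?_, ?_⟩
      · calc lb s * X ^ (p + s + 1) * x * (X ^ q * y * m)
            = lb s * X ^ (s + 1 + p) * (x * (X ^ q * y * m)) := by
              rw [show p + s + 1 = s + 1 + p by omega]; simp only [mul_assoc]
          _ = lb s * X ^ (s + 1) * (X ^ p * x * m) * X ^ (q + 1) := by
              rw [E1, pow_add X (s + 1) p]; simp only [mul_assoc]
          _ = lb s * X ^ s * (X * m * x) * X ^ p * X ^ (q + 1) := by
              rw [L.cx, pow_succ X s]; simp only [mul_assoc]
          _ = (lb s * X ^ s * y * m) * x * X ^ p * X ^ (q + 1) := by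
              rw [hXx]; simp only [mul_assoc]
          _ = 0 := by rw [k2]; simp only [zero_mul]
      · calc X ^ q * y * m * x * X ^ (p + s + 1) * lb s
            = X ^ (q + 1) * (m * x * X ^ p) * X ^ (s + 1) * lb s := by
              rw [E2, show p + s + 1 = p + (s + 1) by omega, pow_add X p (s + 1)]
              simp only [mul_assoc]
          _ = X ^ (q + 1) * X ^ p * (x * m * X) * X ^ s * lb s := by
              rw [← L.cx, pow_succ' X s]; simp only [mul_assoc]
          _ = X ^ (q + 1) * X ^ p * x * (m * y * X ^ s * lb s) := by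
              rw [hxX]; simp only [mul_assoc]
          _ = 0 := by rw [k3, mul_zero]
  · -- hb
    intro i hi
    obtain ⟨k1, k2, k3⟩ := L.hb i hi
    refine ⟨k1, ?_, ?_⟩
    · calc lb i * X ^ i * y * (X ^ q * y * m)
          = (lb i * X ^ i * y * m) * (y * X ^ q) := by rw [L.cy]; simp only [mul_assoc]
        _ = 0 := by rw [k2, zero_mul]
    · calc X ^ q * y * m * y * X ^ i * lb i
          = X ^ q * y * (m * y * X ^ i * lb i) := by simp only [mul_assoc]
        _ = 0 := by rw [k3, mul_zero]
  · -- la0
    intro _
    rcases Nat.eq_zero_or_pos p with h | h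
    · subst h
      simp only [stepLa, lt_irrefl, if_false, if_true]
    · simp only [stepLa, if_pos h]
      exact L.la0 h
  · exact L.lb0
  · -- ia
    intro j hj
    rcases Nat.lt_or_ge q j with h | h
    · obtain ⟨i, rfl⟩ := Nat.exists_eq_add_of_lt h
      have hi : i < p := by omega
      have e : X ^ (q + i + 1) * x * (X ^ q * y * m) * Xi ^ (q + i + 1 + 1) =
          X ^ (q + 1) * (X ^ i * x * m * Xi ^ (i + 1)) := by
        calc X ^ (q + i + 1) * x * (X ^ q * y * m) * Xi ^ (q + i + 1 + 1)
            = X ^ (q + i + 1) * (x * (X ^ q * y * m)) * Xi ^ (q + i + 1 + 1) := by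
              simp only [mul_assoc]
          _ = X ^ (q + 1) * (X ^ i * x * m * (X ^ (q + 1) * Xi ^ (q + 1 + (i + 1)))) := by
              rw [E1, show q + i + 1 + 1 = q + 1 + (i + 1) by omega,
                show q + i + 1 = q + 1 + i by omega, pow_add X (q + 1) i]
              simp only [mul_assoc]
          _ = _ := by rw [pwi' h1 h2]
      rw [e]
      have := mm (hXp (q + 1)) (L.ia i hi)
      rwa [show q + 1 + (p + q) = p + q + 1 + q by omega] at this
    · rw [hia0 j h]
      have := mm (mm (mm (hXp j) hx1) L.hm) (hXp (q - j))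
      rwa [show j + 1 + (p + q) + (q - j) = p + q + 1 + q by omega] at this
  · -- ib
    intro j hj
    obtain ⟨r, hr⟩ := Nat.exists_eq_add_of_le (show j + 1 ≤ q from hj)
    rw [hib0 j r hr]
    have := mm (mm (mm (mm (hXp j) hy1) L.hm) hy1) (hXp r)
    rwa [show j + 1 + (p + q) + 1 + r = p + q + 1 + q by omega] at this
  · -- sp
    intro U hU1 hU2 hU3
    -- `X * W ^ (p + q) ≤ W ^ (p + q) * X + C m x`
    have hA : ∀ z ∈ W ^ (p + q), X * z ∈ W ^ (p + q) * ln X ⊔ ln (m * x) := by
      have hr : ∀ z ∈ W ^ (p + q), z * X ∈ W ^ (p + q) * ln X ⊔ ln (m * x) := fun z hz =>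
        Submodule.mem_sup_left (Submodule.mul_mem_mul hz (mem_ln_self X))
      have hl : m * x ∈ W ^ (p + q) * ln X ⊔ ln (m * x) :=
        Submodule.mem_sup_right (mem_ln_self _)
      have hmy : m * y = m * X - m * x := by rw [← hxy, mul_add, add_sub_cancel_left]
      have hmy' : m * y ∈ W ^ (p + q) * ln X ⊔ ln (m * x) := by
        rw [hmy]; exact Submodule.sub_mem _ (hr m L.hm) hl
      have key := L.sp ((W ^ (p + q) * ln X ⊔ ln (m * x)).comap (LinearMap.mulLeft ℂ X))
        (by
          rw [Submodule.mem_comap, LinearMap.mulLeft_apply]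
          have e : X * m = x * m + y * m := by rw [← hxy, add_mul]
          rw [e]
          refine Submodule.add_mem _ ?_ ?_
          · rcases Nat.eq_zero_or_pos p with h | h
            · have := L.cx
              rw [h, pow_zero, one_mul, mul_one] at this
              rw [this]; exact hl
            · have h3 := L.ia 0 h
              rw [pow_zero, one_mul, zero_add, pow_one] at h3
              have := hr _ h3
              rwa [mul_assoc (x * m) Xi X, h2, mul_one] at this
          · rcases Nat.eq_zero_or_pos q with h | h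
            · have := L.cy
              rw [h, pow_zero, one_mul, mul_one] at this
              rw [this]; exact hmy'
            · have h3 := L.ib 0 h
              rw [pow_zero, one_mul, zero_add, pow_one] at h3
              have := hr _ h3
              rwa [mul_assoc (y * m) Xi X, h2, mul_one] at this)
        (by
          intro j hj
          rw [Submodule.mem_comap, LinearMap.mulLeft_apply]
          rcases Nat.lt_or_ge (j + 1) p with h | h
          · have := hr _ (L.ia (j + 1) h)
            have e : X ^ (j + 1) * x * m * Xi ^ (j + 1 + 1) * X =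
                X * (X ^ j * x * m * Xi ^ (j + 1)) := by
              rw [pow_succ Xi (j + 1), mul_assoc (X ^ (j + 1) * x * m),
                mul_assoc (Xi ^ (j + 1)) Xi X, h2, mul_one, pow_succ' X j]
              simp only [mul_assoc]
            rwa [e] at this
          · have hp : p = j + 1 := by omega
            have e : X * (X ^ j * x * m * Xi ^ (j + 1)) = m * x := by
              calc X * (X ^ j * x * m * Xi ^ (j + 1))
                  = (X ^ p * x * m) * Xi ^ (j + 1) := by
                    rw [hp, pow_succ' X j]; simp only [mul_assoc]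
                _ = m * x * (X ^ (0 + (j + 1)) * Xi ^ (j + 1)) := by
                    rw [L.cx, hp, zero_add]; simp only [mul_assoc]
                _ = m * x := by rw [pwi h1 h2, pow_zero, mul_one]
            rw [e]; exact hl)
        (by
          intro j hj
          rw [Submodule.mem_comap, LinearMap.mulLeft_apply]
          rcases Nat.lt_or_ge (j + 1) q with h | h
          · have := hr _ (L.ib (j + 1) h)
            have e : X ^ (j + 1) * y * m * Xi ^ (j + 1 + 1) * X =
                X * (X ^ j * y * m * Xi ^ (j + 1)) := by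
              rw [pow_succ Xi (j + 1), mul_assoc (X ^ (j + 1) * y * m),
                mul_assoc (Xi ^ (j + 1)) Xi X, h2, mul_one, pow_succ' X j]
              simp only [mul_assoc]
            rwa [e] at this
          · have hq : q = j + 1 := by omega
            have e : X * (X ^ j * y * m * Xi ^ (j + 1)) = m * y := by
              calc X * (X ^ j * y * m * Xi ^ (j + 1))
                  = (X ^ q * y * m) * Xi ^ (j + 1) := by
                    rw [hq, pow_succ' X j]; simp only [mul_assoc]
                _ = m * y * (X ^ (0 + (j + 1)) * Xi ^ (j + 1)) := by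
                    rw [L.cy, hq, zero_add]; simp only [mul_assoc]
                _ = m * y := by rw [pwi h1 h2, pow_zero, mul_one]
            rw [e]; exact hmy')
      exact fun z hz => key hz
    -- the powers up to `p + q + 1 + q`
    have hB : ∀ s, s ≤ q → ∀ V : Submodule ℂ (Matrix (Fin D) (Fin D) ℂ),
        (∀ z ∈ W ^ (p + q), z * X ^ (s + 1) ∈ V) →
        (∀ i, i ≤ s → X ^ i * (m * x) * X ^ (s - i) ∈ V) → W ^ (p + q + 1 + s) ≤ V := by
      intro s
      induction s with
      | zero =>
        intro _ V hV1 hV2
        have hV3 : m * x ∈ V := by simpa using hV2 0 le_rfl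
        refine (hgr (p + q) le_rfl (by omega)).trans (sup_le ?_ ?_)
        · intro u hu
          obtain ⟨z, hz, rfl⟩ := mem_ln_mul.1 hu
          obtain ⟨a, ha, b, hb, hab⟩ := Submodule.mem_sup.1 (hA z hz)
          obtain ⟨z', hz', rfl⟩ := mem_mul_ln.1 ha
          rw [← hab]
          refine Submodule.add_mem _ ?_ (ln_le.2 hV3 hb)
          simpa using hV1 z' hz'
        · intro u hu
          obtain ⟨z, hz, rfl⟩ := mem_mul_ln.1 hu
          simpa using hV1 z hz
      | succ s ih =>
        intro hs V hV1 hV2
        have i1 := ih (by omega) (V.comap (LinearMap.mulLeft ℂ X))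
          (by
            intro z hz
            rw [Submodule.mem_comap, LinearMap.mulLeft_apply]
            obtain ⟨a, ha, b, hb, hab⟩ := Submodule.mem_sup.1 (hA z hz)
            obtain ⟨z', hz', rfl⟩ := mem_mul_ln.1 ha
            obtain ⟨c, rfl⟩ := Submodule.mem_span_singleton.1 hb
            rw [← mul_assoc, ← hab, add_mul]
            refine Submodule.add_mem _ ?_ ?_
            · have := hV1 z' hz'
              rwa [mul_assoc, ← pow_succ']
            · rw [smul_mul_assoc]
              have := hV2 0 (Nat.zero_le _)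
              rw [pow_zero, one_mul, Nat.sub_zero] at this
              exact Submodule.smul_mem _ _ this)
          (by
            intro i hi
            rw [Submodule.mem_comap, LinearMap.mulLeft_apply]
            have := hV2 (i + 1) (by omega)
            rw [show s + 1 - (i + 1) = s - i by omega, pow_succ' X i] at this
            simpa only [mul_assoc] using this)
        have i2 := ih (by omega) (V.comap (LinearMap.mulRight ℂ X))
          (by
            intro z hz
            rw [Submodule.mem_comap, LinearMap.mulRight_apply, mul_assoc, ← pow_succ]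
            exact hV1 z hz)
          (by
            intro i hi
            rw [Submodule.mem_comap, LinearMap.mulRight_apply, mul_assoc, ← pow_succ,
              show s - i + 1 = s + 1 - i by omega]
            exact hV2 i (by omega))
        rw [show p + q + 1 + (s + 1) = p + q + 1 + s + 1 by omega]
        refine (hgr (p + q + 1 + s) (by omega) (by omega)).trans (sup_le ?_ ?_)
        · intro u hu
          obtain ⟨z, hz, rfl⟩ := mem_ln_mul.1 hu
          exact i1 hz
        · intro u hu
          obtain ⟨z, hz, rfl⟩ := mem_mul_ln.1 hu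
          exact i2 hz
    have hb'' : ∀ s, s ≤ q → X ^ s * (m * x) * X ^ (q - s) ∈ U := by
      intro s hs
      rw [← hb' s hs]
      exact hU2 (p + s) (by omega)
    refine hB q le_rfl U ?_ hb''
    have key := L.sp (U.comap (LinearMap.mulRight ℂ (X ^ (q + 1))))
      (by
        rw [Submodule.mem_comap, LinearMap.mulRight_apply]
        have e : m * X ^ (q + 1) = X ^ 0 * (m * x) * X ^ (q - 0) + X ^ q * y * m := by
          rw [L.cy, pow_succ' X q, ← mul_assoc, pow_zero, one_mul, Nat.sub_zero, ← add_mul,
            ← mul_add, hxy]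
        rw [e]
        exact Submodule.add_mem _ (hb'' 0 (Nat.zero_le _)) hU1)
      (by
        intro j hj
        rw [Submodule.mem_comap, LinearMap.mulRight_apply]
        have e : X ^ j * x * m * Xi ^ (j + 1) * X ^ (q + 1) =
            X ^ j * x * (X ^ q * y * m) * Xi ^ (j + 1) := by
          calc X ^ j * x * m * Xi ^ (j + 1) * X ^ (q + 1)
              = X ^ j * (x * m * X ^ (q + 1)) * Xi ^ (j + 1) := by
                rw [mul_assoc _ (Xi ^ (j + 1)), pwc h1 h2]; simp only [mul_assoc]
            _ = _ := by rw [← E1]; simp only [mul_assoc]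
        rw [e]
        exact hU2 j (by omega))
      (by
        intro j hj
        rw [Submodule.mem_comap, LinearMap.mulRight_apply]
        obtain ⟨r, hr⟩ := Nat.exists_eq_add_of_le (show j + 1 ≤ q from hj)
        have e : X ^ j * y * m * Xi ^ (j + 1) * X ^ (q + 1) =
            X ^ (j + 1) * (m * x) * X ^ (q - (j + 1)) +
              X ^ j * y * (X ^ q * y * m) * Xi ^ (j + 1) := by
          rw [hib0 j r hr, show q - (j + 1) = r by omega]
          calc X ^ j * y * m * Xi ^ (j + 1) * X ^ (q + 1)
              = X ^ j * y * m * (X ^ (r + 1 + (j + 1)) * Xi ^ (j + 1)) := by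
                rw [mul_assoc _ (Xi ^ (j + 1)), pwc h1 h2,
                  show q + 1 = r + 1 + (j + 1) by omega]
            _ = X ^ j * (y * m * (x + y)) * X ^ r := by
                rw [pwi h1 h2, pow_succ' X r, hxy]; simp only [mul_assoc]
            _ = X ^ j * (X * m * x) * X ^ r + X ^ j * (y * m * y) * X ^ r := by
                rw [mul_add, hXx, mul_add, add_mul]
            _ = _ := by
                rw [pow_succ X j]; simp only [mul_assoc]
        rw [e]
        exact Submodule.add_mem _ (hb'' (j + 1) (by omega)) (hU3 j hj))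
    exact fun z hz => key hz

end Pool.Agent.Y331.MPS
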